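import Mathlib
import Pool.Agent.Run7.h964.FM.R

/-!
# Hyperbolicity of `m ∘ f` for almost all Möbius maps `m`, uniformly in the rational map `f`

For a rational map `f = P / Q` of degree `d ≥ 2` and an invertible matrix `m` let `m ∘ f` be the
rational map `(m₁₁ P + m₁₂ Q) / (m₂₁ P + m₂₂ Q)` of degree `d`. There is an absolute constant `C` such
that for EVERY `f` of degree `d ≥ 2`:

* of the matrices with `1 ≤ max |m_ij| ≤ 2` and `0 < |det m| ≤ ε`, whose volume is at least `ε ^ 2`,
  only a set of volume `C d ε ^ 3` gives maps `m ∘ f` which are not hyperbolic. After division by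
  `√(det m)` these are the elements of `SL₂(ℂ)` with norm between about `ε ^ (-1/2)` and infinity; so
  in every orbit `{m ∘ f}` of the group of Möbius maps the hyperbolic maps have full density with
  respect to Haar measure, with the proportion `O(d / R ^ 2)` of exceptions at norm `R`, uniformly in
  all orbits;
* there is `m` in `SL₂(ℂ)` with `max |m_ij| ≤ 82 √d` such that `m ∘ f` is hyperbolic; applied to all
  maps `n ∘ f` this says that hyperbolic maps are coarsely dense in all orbits, with the same bound;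
* for all pairs of vectors `(a, b)` of the unit ball of `ℂ²` outside a set of volume `C d t`, ALL
  invertible matrices at distance at most `t |a| |b|` from the matrix `b aᵀ` of rank one give
  hyperbolic maps.

Proof. Let `F` be the homogeneous lift of `f`. For a unit vector `b` consider the curve
`ζ ↦ F (b + ζ b^⊥)`, `|ζ| ≤ R`. The mean of `log |F (b + ζ b^⊥)|` over the circle `|ζ| = R` minus
`log |F b|` is the gap in Jensen's inequality; if it is small then the direction of the curve is nearly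
constant for `|ζ| ≤ R / 4` (Jensen's formula and Cauchy's formula). By the invariance of the uniform
measure of the sphere under the isometries `b ↦ (b + ζ b^⊥) / √(1 + |ζ| ^ 2)` the mean value of the gap
over all `b` is exactly `(d / 2) log (1 + R ^ 2)`, for all `F` of degree `d`. Hence for most `b` the map
`f` is nearly constant on the disc of radius `√t` around the point `b`, and for most `a` the value is far
from the point of the sphere which `b aᵀ` does not contract, and so are the critical values; then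
the disc is mapped well inside itself and contains the images of all critical points.

The library on rational maps of the sphere in homogeneous coordinates is from the starting files
(`Pool/Agent/H790R3/RB`, `Pool/Agent/R239/Fat/T1`).
-/

set_option autoImplicit false

open MeasureTheory Polynomial

namespace Pool.Agent.Results.MP_8f2e1c_an.UniformCoarseDensity

/-- `P / Q` is in lowest terms and every critical point (point of the Riemann sphere where the map
is not locally injective) has an orbit converging to an attracting periodic cycle. This is word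
for word the condition of the frozen statement `S05373`. -/
def Hyperbolic (P Q : Polynomial ℂ) : Prop :=
  IsCoprime P Q ∧ ∃ f : OnePoint ℂ → OnePoint ℂ, Continuous f ∧
    (∀ z : ℂ, Q.eval z ≠ 0 →
      f (OnePoint.some z) = OnePoint.some (P.eval z / Q.eval z)) ∧
    ∀ c : OnePoint ℂ, (¬ ∃ U ∈ nhds c, Set.InjOn f U) →
      ∃ z : OnePoint ℂ, ∃ n : ℕ, 0 < n ∧ f^[n] z = z ∧
        (∃ U ∈ nhds z, ∀ w ∈ U,
          Filter.Tendsto (fun k : ℕ => f^[n * k] w) Filter.atTop (nhds z)) ∧
        Filter.Tendsto (fun k : ℕ => f^[n * k] c) Filter.atTop (nhds z)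

/-- A complex `2 × 2` matrix, given by its rows. `‖m‖` is the maximum of the absolute values of the
four entries; `volume` is the Lebesgue measure of `ℂ⁴`. -/
abbrev Mat : Type := (ℂ × ℂ) × (ℂ × ℂ)

/-- the determinant -/
def det (m : Mat) : ℂ := m.1.1 * m.2.2 - m.1.2 * m.2.1

/-- the numerator of `m ∘ (P / Q)` -/
noncomputable def num (m : Mat) (P Q : ℂ[X]) : ℂ[X] := C m.1.1 * P + C m.1.2 * Q

/-- the denominator of `m ∘ (P / Q)` -/
noncomputable def den (m : Mat) (P Q : ℂ[X]) : ℂ[X] := C m.2.1 * P + C m.2.2 * Q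

/-- the matrices with `1 ≤ max |m_ij| ≤ 2` and `0 < |det m| ≤ ε` -/
def Far (ε : ℝ) : Set Mat := {m | 1 ≤ ‖m‖ ∧ ‖m‖ ≤ 2 ∧ ‖det m‖ ≤ ε ∧ det m ≠ 0}

/-- the Euclidean norm of a vector of `ℂ²` -/
noncomputable def len (p : ℂ × ℂ) : ℝ := √(‖p.1‖ ^ 2 + ‖p.2‖ ^ 2)

/-- the matrix `b aᵀ` of rank one -/
def rankOne (a b : ℂ × ℂ) : Mat := ((b.1 * a.1, b.1 * a.2), (b.2 * a.1, b.2 * a.2))

theorem of_hypTop {d : ℕ} (hd : 2 ≤ d) {x : Pool.Agent.H790R3.RB.CV d}
    (hx : Pool.Agent.H790R3.RB.ND x) {P Q : ℂ[X]} (hP : Pool.Agent.H790R3.RB.pol x 0 = P)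
    (hQ : Pool.Agent.H790R3.RB.pol x 1 = Q) {m : Mat} (hm : det m ≠ 0)
    (h : Pool.Agent.H790R3.RB.HypTop (Pool.Agent.H790R3.RB.sp (Run7.h964.FM.cm m x))) :
    Hyperbolic (num m P Q) (den m P Q) := by
  have hn := Run7.h964.FM.nd_cm (m := m) hm hx
  obtain ⟨e1, e2⟩ := Run7.h964.FM.pol_cm m x
  rw [hP, hQ] at e1 e2
  have h1 := Pool.Agent.H790R3.RB.PQ.part1 (by omega : 1 ≤ d) _ hn
  rw [e1, e2] at h1
  refine ⟨h1.1, Pool.Agent.H790R3.RB.sp (Run7.h964.FM.cm m x),
    Pool.Agent.H790R3.RB.SP.sp_cont hn, fun z hz => ?_, h⟩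
  have h2 := Pool.Agent.H790R3.RB.PQ.sp_eval (Run7.h964.FM.cm m x) z (by rw [e2]; exact hz)
  rw [e1, e2] at h2
  exact h2

/-- **Uniform coarse density of hyperbolic maps.** There is an absolute constant `C` such that for
all `d ≥ 2` and ALL rational maps `f = P / Q` of degree `d`:

(0) all the `m ∘ f`, `det m ≠ 0`, are rational maps of degree `d`;

(1) for `0 < ε ≤ 1` the matrices `m` with `1 ≤ max |m_ij| ≤ 2` and `0 < |det m| ≤ ε` have volume at
least `ε ^ 2`, and those of them for which `m ∘ f` is not hyperbolic have volume at most `C d ε ^ 3`;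

(2) for some matrix `m` of determinant one with entries of modulus at most `82 √d` the map `m ∘ f` is
hyperbolic;

(3) for `0 < t ≤ 1` the pairs `(a, b)` of vectors of the unit ball of `ℂ²` for which there is an
invertible matrix `m`, with entries at distance at most `t |a| |b|` from those of `b aᵀ`, such that
`m ∘ f` is not hyperbolic, are contained in a set of volume at most `C d t`. -/
theorem result : ∃ K : ℝ, 0 < K ∧ ∀ (d : ℕ) (P Q : ℂ[X]), 2 ≤ d → IsCoprime P Q →
    max P.natDegree Q.natDegree = d →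
    (∀ m : Mat, det m ≠ 0 → IsCoprime (num m P Q) (den m P Q) ∧
      max (num m P Q).natDegree (den m P Q).natDegree = d) ∧
    (∀ ε : ℝ, 0 < ε → ε ≤ 1 → ENNReal.ofReal (ε ^ 2) ≤ volume (Far ε) ∧
      volume {m : Mat | m ∈ Far ε ∧ ¬ Hyperbolic (num m P Q) (den m P Q)} ≤
        ENNReal.ofReal (K * d * ε ^ 3)) ∧
    (∃ m : Mat, det m = 1 ∧ ‖m‖ ≤ 82 * √d ∧ Hyperbolic (num m P Q) (den m P Q)) ∧
    (∀ t : ℝ, 0 < t → t ≤ 1 →
      volume {q : (ℂ × ℂ) × (ℂ × ℂ) | len q.1 ≤ 1 ∧ len q.2 ≤ 1 ∧ ∃ m : Mat, det m ≠ 0 ∧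
        ‖m - rankOne q.1 q.2‖ ≤ t * (len q.1 * len q.2) ∧
        ¬ Hyperbolic (num m P Q) (den m P Q)} ≤ ENNReal.ofReal (K * d * t)) := by
  have hK : 0 < Run7.h964.FM.KK := by
    unfold Run7.h964.FM.KK
    positivity
  have hpi := Real.pi_gt_three
  refine ⟨746496 * Real.pi * Run7.h964.FM.KK, by positivity, fun d P Q hd hc hdeg => ?_⟩
  obtain ⟨x, hx, hP, hQ, -⟩ :=
    (Pool.Agent.H790R3.RB.PQ Pool.Agent.H790R3.RB.SP d (by omega)).2 P Q hc hdeg
  refine ⟨fun m hm => ?_, fun ε hε hε1 => ⟨Run7.h964.FM.Small_ge hε hε1, ?_⟩, ?_,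
    fun t ht ht1 => ?_⟩
  · have hn := Run7.h964.FM.nd_cm (m := m) hm hx
    obtain ⟨e1, e2⟩ := Run7.h964.FM.pol_cm m x
    rw [hP, hQ] at e1 e2
    have h1 := Pool.Agent.H790R3.RB.PQ.part1 (by omega : 1 ≤ d) _ hn
    rw [e1, e2] at h1
    exact h1
  · refine le_trans (measure_mono ?_) (Run7.h964.FM.Small_bad hd hx hε hε1)
    rintro m ⟨h1, h2⟩
    exact ⟨h1, fun h3 => h2 (of_hypTop hd hx hP hQ h1.2.2.2 h3)⟩
  · obtain ⟨m, h1, h2, h3⟩ := Run7.h964.FM.exists_matrix hd hx
    refine ⟨m, h1, h2, of_hypTop hd hx hP hQ ?_ h3⟩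
    have h4 : det m = 1 := h1
    rw [h4]
    exact one_ne_zero
  · have h5 : Run7.h964.FM.KK * d * t ≤ 746496 * Real.pi * Run7.h964.FM.KK * d * t := by
      have h6 : 0 ≤ Run7.h964.FM.KK * d * t := by positivity
      nlinarith
    refine le_trans (measure_mono ?_) ((Run7.h964.FM.rank_one_bad hd hx ht ht1).trans
      (ENNReal.ofReal_le_ofReal h5))
    rintro q ⟨h1, h2, m, h3, h4, h6⟩
    refine ⟨h1, h2, m, h3, ?_, fun h7 => h6 (of_hypTop hd hx hP hQ h3 h7)⟩
    have e1 : Run7.h964.FM.rk (Run7.h964.FM.JJ q.1) q.2 = rankOne q.1 q.2 := by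
      simp only [Run7.h964.FM.rk, Run7.h964.FM.JJ, rankOne, neg_neg]
    rw [e1]
    have h8 := (norm_fst_le (m - rankOne q.1 q.2)).trans h4
    have h9 := (norm_snd_le (m - rankOne q.1 q.2)).trans h4
    exact ⟨(norm_fst_le _).trans h8, (norm_snd_le _).trans h8, (norm_fst_le _).trans h9,
      (norm_snd_le _).trans h9⟩

end Pool.Agent.Results.MP_8f2e1c_an.UniformCoarseDensity
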